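import Pool.Agent.Y423.AL.Base
import Pool.Agent.Helper650.Alt5

set_option autoImplicit false

/-!
Labellings of `K_n` in which every increasing path has length `O(n log log n / log n)`.
-/

namespace Pool.Agent.Y423.AL

open Finset Helper650Alt

/-- The labelling of `K_n` from a schedule, with the bound in terms of the number of blocks. -/
theorem kn (k Lm n : ℕ) {X : Type} [Fintype X] [DecidableEq X] (τ : X → X → ℕ)
    (hcard : Fintype.card X = 2 ^ k) (hτ : ∀ x y, τ x y < 2 ^ k)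
    (hL : ∀ v l, Inc opp (tm τ) 0 (2 ^ k) v l → (v :: l).Nodup → l.length ≤ Lm) :
    ∃ lab : Sym2 (Fin n) → ℕ,
    Set.BijOn lab (⊤ : SimpleGraph (Fin n)).edgeSet (Set.Icc 1 (n.choose 2)) ∧
    ∀ (u v : Fin n) (w : (⊤ : SimpleGraph (Fin n)).Walk u v), w.IsPath →
      (w.edges.map lab).Pairwise (· < ·) → w.length ≤ (n / 2 ^ k + 1) * Lm + 2 ^ k := by
  classical
  set M : ℕ := 2 ^ k with hM
  have hM0 : 0 < M := by positivity
  set s : ℕ := n / M + 1 with hs
  have hsM : n ≤ s * M := by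
    have := Nat.div_add_mod n M
    have h2 := Nat.mod_lt n hM0
    have h3 : s * M = M * (n / M) + M := by rw [hs]; ring
    omega
  have hemb : Nonempty (Fin n ↪ Fin s × X) := by
    refine Function.Embedding.nonempty_of_card_le ?_
    rw [Fintype.card_fin, Fintype.card_prod, Fintype.card_fin, hcard]
    exact hsM
  obtain ⟨ι⟩ := hemb
  -- the key
  set G : Sym2 (Fin n) → ℕ := Sym2.lift ⟨fun u v => gt τ M s (ι u) (ι v),
    fun u v => gt_symm τ M (ι u) (ι v)⟩ with hG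
  set B : ℕ := Fintype.card (Sym2 (Fin n)) with hB
  set K : Sym2 (Fin n) → ℕ := fun e => G e * B + (Fintype.equivFin (Sym2 (Fin n)) e : ℕ) with hK
  have hKinj : Function.Injective K := by
    intro e e' h
    simp only [hK] at h
    have h1 : (Fintype.equivFin (Sym2 (Fin n)) e : ℕ) < B := Fin.isLt _
    have h2 : (Fintype.equivFin (Sym2 (Fin n)) e' : ℕ) < B := Fin.isLt _
    have h3 : (Fintype.equivFin (Sym2 (Fin n)) e : ℕ) = (Fintype.equivFin (Sym2 (Fin n)) e' : ℕ) := by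
      have e1 : (G e * B + (Fintype.equivFin (Sym2 (Fin n)) e : ℕ)) % B
          = (Fintype.equivFin (Sym2 (Fin n)) e : ℕ) := by
        rw [Nat.add_comm, Nat.add_mul_mod_self_right, Nat.mod_eq_of_lt h1]
      have e2 : (G e' * B + (Fintype.equivFin (Sym2 (Fin n)) e' : ℕ)) % B
          = (Fintype.equivFin (Sym2 (Fin n)) e' : ℕ) := by
        rw [Nat.add_comm, Nat.add_mul_mod_self_right, Nat.mod_eq_of_lt h2]
      rw [← e1, ← e2, h]
    exact (Fintype.equivFin (Sym2 (Fin n))).injective (Fin.ext h3)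
  have hKG : ∀ e e', rank K e < rank K e' → G e ≤ G e' := by
    intro e e' h
    have h1 : K e < K e' := by
      by_contra h'
      exact absurd (rank_mono K (not_lt.mp h')) (not_le.mpr h)
    by_contra h2
    rw [not_le] at h2
    have h3 : (Fintype.equivFin (Sym2 (Fin n)) e' : ℕ) < B := Fin.isLt _
    have h4 : (G e' + 1) * B ≤ G e * B := Nat.mul_le_mul_right _ h2
    have h5 : (G e' + 1) * B = G e' * B + B := by ring
    simp only [hK] at h1
    omega
  refine ⟨rank K, rank_bij K hKinj, ?_⟩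
  intro u v w hw hinc
  have hb : ∀ x y : Fin n, gt τ M s (ι x) (ι y) < s * M + 1 := by
    intro x y
    by_cases hxy : (ι x).1 = (ι y).1
    · unfold gt; rw [if_pos hxy]; omega
    · have := gt_lt τ M hτ hxy; omega
  have hI := walk_inc (gt τ M s) (s * M + 1) ι hb (rank K)
    (fun x y x' y' h => hKG s(x, y) s(x', y') h) w hinc 0 (fun _ _ _ => Nat.zero_le _)
  have hN : (ι u :: w.support.tail.map ι).Nodup := by
    have h1 : (w.support.map ι).Nodup := hw.support_nodup.map ι.injective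
    rw [← SimpleGraph.Walk.cons_tail_support w, List.map_cons] at h1
    exact h1
  have hlen := total_len τ M Lm hτ hL s le_rfl (b := s * M + 1)
    (by rw [Nat.sub_self, zero_mul]; exact hI) hN
  have hlen2 : (w.support.tail.map ι).length = w.length := by
    rw [List.length_map, List.length_tail, SimpleGraph.Walk.length_support]
    simp
  rw [hlen2, hcard] at hlen
  exact hlen

/-- For every `n ≥ 16` the complete graph `K_n` has a labelling in which every increasing path has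
length at most `516 * n * log log n / log n`. -/
theorem main (n : ℕ) (hn : 16 ≤ n) : ∃ lab : Sym2 (Fin n) → ℕ,
    Set.BijOn lab (⊤ : SimpleGraph (Fin n)).edgeSet (Set.Icc 1 (n.choose 2)) ∧
    ∀ (u v : Fin n) (w : (⊤ : SimpleGraph (Fin n)).Walk u v), w.IsPath →
      (w.edges.map lab).Pairwise (· < ·) →
        (w.length : ℝ) ≤ 516 * (n * Real.log (Real.log n) / Real.log n) := by
  have hn0 : n ≠ 0 := by omega
  have hnR : (16 : ℝ) ≤ n := by exact_mod_cast hn
  have hnp : (0 : ℝ) < n := by linarith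
  set k := Nat.log 2 n / 2 with hk
  obtain ⟨X, i1, i2, τ, hcard, hτ, hbd⟩ := bipartite_bound k
  set r : ℝ := Real.log ((k : ℝ) + 2) / ((k : ℝ) + 2) with hr
  have hk0 : (0 : ℝ) ≤ k := Nat.cast_nonneg k
  have hr0 : 0 ≤ r := div_nonneg (Real.log_nonneg (by linarith)) (by linarith)
  have hMp : (0 : ℝ) < 2 ^ k := by positivity
  obtain ⟨lab, hbij, hlab⟩ := kn k ⌊64 * r * 2 ^ k⌋₊ n τ hcard hτ
    (fun v l hl hn => Nat.le_floor (hbd v l hl hn))
  refine ⟨lab, hbij, fun u v w hw hinc => ?_⟩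
  have hlen := hlab u v w hw hinc
  have hlen' : (w.length : ℝ) ≤ ((n / 2 ^ k + 1 : ℕ) : ℝ) * (⌊64 * r * 2 ^ k⌋₊ : ℕ) + 2 ^ k := by
    exact_mod_cast hlen
  -- size of `2 ^ k`
  have hMM : (2 : ℝ) ^ k * 2 ^ k ≤ n := by
    have h1 : 2 ^ k * 2 ^ k ≤ n := by
      rw [← pow_add]
      refine le_trans (Nat.pow_le_pow_right (by norm_num) ?_) (Nat.pow_log_le_self 2 hn0)
      omega
    exact_mod_cast h1
  have hMn : (2 : ℝ) ^ k ≤ n := by
    have h1 : (1 : ℝ) ≤ 2 ^ k := one_le_pow₀ (by norm_num)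
    nlinarith
  have hs : ((n / 2 ^ k + 1 : ℕ) : ℝ) * 2 ^ k ≤ 2 * n := by
    have h1 : (n / 2 ^ k + 1) * 2 ^ k ≤ n + 2 ^ k := by
      have := Nat.div_mul_le_self n (2 ^ k)
      have h3 : (n / 2 ^ k + 1) * 2 ^ k = n / 2 ^ k * 2 ^ k + 2 ^ k := by ring
      omega
    have h2 : (((n / 2 ^ k + 1) * 2 ^ k : ℕ) : ℝ) ≤ ((n + 2 ^ k : ℕ) : ℝ) := by exact_mod_cast h1
    push_cast at h2 ⊢
    linarith
  have hf : ((⌊64 * r * 2 ^ k⌋₊ : ℕ) : ℝ) ≤ 64 * r * 2 ^ k := Nat.floor_le (by positivity)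
  have h1 : (w.length : ℝ) ≤ 128 * r * n + 2 ^ k := by
    calc (w.length : ℝ) ≤ ((n / 2 ^ k + 1 : ℕ) : ℝ) * (⌊64 * r * 2 ^ k⌋₊ : ℕ) + 2 ^ k := hlen'
      _ ≤ ((n / 2 ^ k + 1 : ℕ) : ℝ) * (64 * r * 2 ^ k) + 2 ^ k := by
          have := mul_le_mul_of_nonneg_left hf (Nat.cast_nonneg (α := ℝ) (n / 2 ^ k + 1))
          linarith
      _ = 64 * r * (((n / 2 ^ k + 1 : ℕ) : ℝ) * 2 ^ k) + 2 ^ k := by ring
      _ ≤ 64 * r * (2 * n) + 2 ^ k := by
          have := mul_le_mul_of_nonneg_left hs (show 0 ≤ 64 * r by positivity)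
          linarith
      _ = 128 * r * n + 2 ^ k := by ring
  -- logarithms
  set ℓ := Real.log n with hℓ
  have hℓ1 : 2.77 ≤ ℓ := by
    have h2 : Real.log 16 ≤ ℓ := Real.log_le_log (by norm_num) hnR
    have h3 : Real.log 16 = 4 * Real.log 2 := by
      rw [show (16 : ℝ) = 2 ^ 4 by norm_num, Real.log_pow]; norm_num
    have := Real.log_two_gt_d9
    linarith
  have hℓ0 : 0 < ℓ := by linarith
  have hll : 1 ≤ Real.log ℓ := by
    rw [Real.le_log_iff_exp_le hℓ0]
    have := Real.exp_one_lt_d9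
    linarith
  have hlog2 := Real.log_two_gt_d9
  have hlog2' := Real.log_two_lt_d9
  -- lower bound for `k + 2`
  have hk1 : ℓ / 2 ≤ (k : ℝ) + 2 := by
    have e1 : n < 2 ^ (Nat.log 2 n + 1) := Nat.lt_pow_succ_log_self (by norm_num) n
    have e2 : (n : ℝ) ≤ 2 ^ (Nat.log 2 n + 1) := by exact_mod_cast e1.le
    have e3 : ℓ ≤ ((Nat.log 2 n + 1 : ℕ) : ℝ) * Real.log 2 := by
      rw [← Real.log_pow]
      exact Real.log_le_log hnp e2
    have e4 : Nat.log 2 n + 1 ≤ 2 * (k + 1) := by omega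
    have e5 : ((Nat.log 2 n + 1 : ℕ) : ℝ) ≤ 2 * ((k : ℝ) + 1) := by exact_mod_cast e4
    have e6 : ℓ ≤ 2 * ((k : ℝ) + 1) * Real.log 2 :=
      e3.trans (mul_le_mul_of_nonneg_right e5 (by linarith))
    nlinarith
  -- upper bound for `k + 2`
  have hk2 : (k : ℝ) + 2 ≤ 2 * ℓ := by
    have e1 : (k : ℝ) * Real.log 2 * 2 ≤ ℓ := by
      have e2 : Real.log ((2 : ℝ) ^ k * 2 ^ k) ≤ ℓ := Real.log_le_log (by positivity) hMM
      rw [Real.log_mul hMp.ne' hMp.ne', Real.log_pow] at e2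
      linarith
    have e3 : (k : ℝ) * (0.69 * 2) ≤ ℓ := by
      have := mul_le_mul_of_nonneg_left (show (0.69 : ℝ) * 2 ≤ Real.log 2 * 2 by linarith) hk0
      linarith
    linarith
  have hr1 : r ≤ 4 * (Real.log ℓ / ℓ) := by
    have e1 : Real.log ((k : ℝ) + 2) ≤ 2 * Real.log ℓ := by
      have e2 : Real.log ((k : ℝ) + 2) ≤ Real.log (2 * ℓ) :=
        Real.log_le_log (by linarith) hk2
      rw [Real.log_mul (by norm_num) hℓ0.ne'] at e2
      linarith
    calc r ≤ 2 * Real.log ℓ / (ℓ / 2) :=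
          div_le_div₀ (by linarith) e1 (by linarith) hk1
      _ = 4 * (Real.log ℓ / ℓ) := by field_simp; ring
  have hsq : (2 : ℝ) ^ k ≤ 4 * (n * Real.log ℓ / ℓ) := by
    have e1 : ℓ ≤ 2 * 2 ^ k * 2 := by
      have e2 : n < 2 ^ (Nat.log 2 n + 1) := Nat.lt_pow_succ_log_self (by norm_num) n
      have e3 : 2 ^ (Nat.log 2 n + 1) ≤ 2 ^ (2 * (k + 1)) :=
        Nat.pow_le_pow_right (by norm_num) (by omega)
      have e4 : (n : ℝ) ≤ 2 ^ (2 * (k + 1)) := by exact_mod_cast (e2.le.trans e3)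
      have e5 : ℓ ≤ Real.log (((2 : ℝ) ^ (k + 1)) ^ 2) := by
        refine Real.log_le_log hnp (e4.trans (le_of_eq ?_))
        rw [← pow_mul]
        congr 1
        ring
      rw [Real.log_pow] at e5
      have e6 := Real.log_le_sub_one_of_pos (show (0 : ℝ) < 2 ^ (k + 1) by positivity)
      push_cast at e5
      have e7 : (2 : ℝ) ^ (k + 1) = 2 * 2 ^ k := by rw [pow_succ]; ring
      rw [e7] at e5 e6
      linarith
    rw [← mul_div_assoc, le_div_iff₀ hℓ0]
    calc (2 : ℝ) ^ k * ℓ ≤ 2 ^ k * (2 * 2 ^ k * 2) := mul_le_mul_of_nonneg_left e1 hMp.le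
      _ = 4 * (2 ^ k * 2 ^ k) := by ring
      _ ≤ 4 * n := mul_le_mul_of_nonneg_left hMM (by norm_num)
      _ ≤ 4 * (n * Real.log ℓ) := by
          have := mul_le_mul_of_nonneg_left hll hnp.le
          linarith
  calc (w.length : ℝ) ≤ 128 * r * n + 2 ^ k := h1
    _ ≤ 128 * (4 * (Real.log ℓ / ℓ)) * n + 4 * (n * Real.log ℓ / ℓ) := by
        have := mul_le_mul_of_nonneg_right (mul_le_mul_of_nonneg_left hr1
          (show (0 : ℝ) ≤ 128 by norm_num)) hnp.le
        linarith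
    _ = 516 * (n * Real.log ℓ / ℓ) := by ring

end Pool.Agent.Y423.AL
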