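import Pool.Agent.Y423.AL.Lev

set_option autoImplicit false

/-!
The schedules of level `k` with an entropy term in the weight: the paths of every length are
counted.
-/

namespace Pool.Agent.Y423.AL

open Finset Helper650Alt

/-- the logarithm of the number of increasing walks, up to a constant factor -/
noncomputable def HH (M l : ℝ) : ℝ := 9 / 8 * l + M * Real.negMulLog (l / M)

/-- the weight -/
noncomputable def wt (κ M : ℝ) (l : ℕ) : ℝ := Real.exp (κ * (l : ℝ) ^ 2 / M - HH M l)

lemma wt_pos (κ M : ℝ) (l : ℕ) : 0 < wt κ M l := Real.exp_pos _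

lemma HH_add (M l m : ℝ) (hM : 0 < M) (hl : 0 ≤ l) (hm : 0 ≤ m) :
    HH M l + HH M m ≤ HH (2 * M) (l + m) := by
  have hx : l / M ∈ Set.Ici (0 : ℝ) := by rw [Set.mem_Ici]; positivity
  have hy : m / M ∈ Set.Ici (0 : ℝ) := by rw [Set.mem_Ici]; positivity
  have h := Real.concaveOn_negMulLog.2 hx hy (show (0 : ℝ) ≤ 1 / 2 by norm_num)
    (show (0 : ℝ) ≤ 1 / 2 by norm_num) (by norm_num)
  simp only [smul_eq_mul] at h
  have h2 : 1 / 2 * (l / M) + 1 / 2 * (m / M) = (l + m) / (2 * M) := by
    field_simp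
  rw [h2] at h
  unfold HH
  have h3 := mul_le_mul_of_nonneg_left h (show (0 : ℝ) ≤ 2 * M by positivity)
  have h4 : 2 * M * (1 / 2 * Real.negMulLog (l / M) + 1 / 2 * Real.negMulLog (m / M)) =
      M * Real.negMulLog (l / M) + M * Real.negMulLog (m / M) := by ring
  rw [h4] at h3
  linarith

lemma wt_up (κ M : ℝ) (hκ : 1 / 8 ≤ κ) (hM : 0 < M) (l m : ℕ) (hl : (l : ℝ) ≤ 2 * M)
    (hm : (m : ℝ) ≤ 2 * M) :
    wt (κ + 1 / 8) (2 * M) (l + m) ≤ Real.exp 1 * (wt κ M l * (wt κ M m *
      Real.exp (((l / 2 : ℕ) : ℝ) * ((m / 2 : ℕ) : ℝ) / M))) := by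
  unfold wt
  rw [← Real.exp_add, ← Real.exp_add, ← Real.exp_add]
  refine Real.exp_le_exp.mpr ?_
  have h1 := num_ineq κ M hκ hM l m hl hm
  have h2 := HH_add M l m hM (Nat.cast_nonneg l) (Nat.cast_nonneg m)
  push_cast at h1 ⊢
  linarith

theorem exists_base (j : ℕ) : ∃ (X P : Type) (_ : Fintype X) (_ : DecidableEq X) (_ : Fintype P)
    (vis : P → Bool × X → List (Bool × X)) (τ : X → X → ℕ),
    Fintype.card X = 2 ^ j ∧ (∀ p v, Alt v (vis p v)) ∧ (∀ x y, τ x y < 2 ^ j) ∧
    Complete vis τ (2 ^ j) ∧ (∀ p v, (vis p v).length ≤ 2 ^ j) ∧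
    ∀ (v : Bool × X) (x : ℝ), ∑ p : P, x ^ (vis p v).length = (1 + x) ^ (2 ^ j) := by
  induction j with
  | zero =>
    refine ⟨Unit, Bool, inferInstance, inferInstance, inferInstance,
      fun p v => if p then [(!v.1, ())] else [], fun _ _ => 0, by simp, ?_, by simp, ?_, ?_, ?_⟩
    · rintro (_ | _) v
      · simp [Alt]
      · simp [Alt]
    · rintro ⟨s, u⟩ l hl hn
      match l, hl, hn with
      | [], _, _ => exact ⟨false, by simp⟩
      | [w], hl, hn =>
        refine ⟨true, ?_⟩
        obtain ⟨t, u'⟩ := w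
        have : t = !s := hl.1
        simp [this]
      | w :: w' :: l, hl, hn =>
        exfalso
        obtain ⟨h1, _, _, h4⟩ := hl
        have h5 := h4.1
        have h6 : w' = (s, u) := by
          have : w'.1 = s := by
            have a1 : w'.1 = !w.1 := h5
            have a2 : w.1 = !s := h1
            rw [a1, a2]; simp
          exact Prod.ext this rfl
        rw [h6] at hn
        simp at hn
    · rintro (_ | _) v <;> simp
    · rintro v x
      rw [Fintype.sum_bool]
      simp [add_comm]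
  | succ j ih =>
    obtain ⟨X, P, i1, i2, i3, vis, τ, hcard, halt, hτ, hcomp, hlen, hgen⟩ := ih
    refine ⟨Bool × X, P × P, inferInstance, inferInstance, inferInstance, vis' vis 1,
      up τ (2 ^ j) 1, ?_, alt_up vis halt 1, ?_, ?_, ?_, ?_⟩
    · rw [Fintype.card_prod, Fintype.card_bool, hcard, pow_succ, mul_comm]
    · have := up_lt τ (2 ^ j) hτ 1
      intro x y
      rw [pow_succ, mul_comm]
      exact this x y
    · have := complete_up vis τ (2 ^ j) hτ 1 hcomp
      rw [pow_succ, mul_comm]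
      exact this
    · rintro ⟨p, q⟩ v
      rw [vis', List.length_append, List.length_map, List.length_map, pow_succ]
      have h1 := hlen p (v.1, v.2.2)
      have h2 := hlen q (tw 1 (endp (v.1, v.2.2) (vis p (v.1, v.2.2))))
      dsimp only
      omega
    · intro v x
      rw [Fintype.sum_prod_type]
      have h1 : ∀ p : P, ∑ q : P, x ^ (vis' vis 1 (p, q) v).length =
          x ^ (vis p (v.1, v.2.2)).length * (1 + x) ^ (2 ^ j) := by
        intro p
        rw [← hgen (tw 1 (endp (v.1, v.2.2) (vis p (v.1, v.2.2)))) x, Finset.mul_sum]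
        refine Finset.sum_congr rfl fun q _ => ?_
        rw [vis', List.length_append, List.length_map, List.length_map, pow_add]
      rw [Finset.sum_congr rfl (fun p _ => h1 p), ← Finset.sum_mul, hgen, ← pow_add, pow_succ]
      congr 1
      ring

lemma base_Z {X P : Type} [Fintype X] [DecidableEq X] [Fintype P]
    (vis : P → Bool × X → List (Bool × X)) (M : ℕ) (hM : 0 < M)
    (hlen : ∀ p v, (vis p v).length ≤ M)
    (hgen : ∀ (v : Bool × X) (x : ℝ), ∑ p : P, x ^ (vis p v).length = (1 + x) ^ M)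
    (v : Bool × X) : ZW vis (wt (1 / 8) M) v ≤ M + 1 := by
  classical
  have hM' : (0 : ℝ) < M := by exact_mod_cast hM
  have h1 : ZW vis (wt (1 / 8) M) v ≤ ∑ p : P, wt (1 / 8) M (vis p v).length := by
    refine Finset.sum_le_sum fun p _ => ?_
    split_ifs
    · exact le_rfl
    · exact (wt_pos _ _ _).le
  refine h1.trans ?_
  have h2 : ∑ p : P, wt (1 / 8) M (vis p v).length =
      ∑ l ∈ range (M + 1), ∑ p ∈ univ.filter (fun p : P => (vis p v).length = l),
        wt (1 / 8) M (vis p v).length := by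
    rw [Finset.sum_fiberwise_of_maps_to]
    intro p _
    rw [mem_range]
    have := hlen p v
    omega
  rw [h2]
  have h3 : ∀ l ∈ range (M + 1), ∑ p ∈ univ.filter (fun p : P => (vis p v).length = l),
        wt (1 / 8) M (vis p v).length ≤ 1 := by
    intro l hl
    rw [mem_range] at hl
    have hlM : (l : ℝ) ≤ M := by exact_mod_cast (by omega : l ≤ M)
    have e1 : ∑ p ∈ univ.filter (fun p : P => (vis p v).length = l),
        wt (1 / 8) M (vis p v).length =
        ((univ.filter (fun p : P => (vis p v).length = l)).card : ℝ) * wt (1 / 8) M l := by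
      rw [Finset.sum_congr rfl (g := fun _ => wt (1 / 8) M l)]
      · rw [sum_const, nsmul_eq_mul]
      · intro p hp
        rw [(mem_filter.mp hp).2]
    rw [e1]
    set c := ((univ.filter (fun p : P => (vis p v).length = l)).card : ℝ) with hc
    have hc0 : 0 ≤ c := Nat.cast_nonneg _
    -- counting
    have e2 : c * ((l : ℝ) / M) ^ l ≤ Real.exp l := by
      have f1 : c * ((l : ℝ) / M) ^ l =
          ∑ p ∈ univ.filter (fun p : P => (vis p v).length = l),
            ((l : ℝ) / M) ^ (vis p v).length := by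
        rw [Finset.sum_congr rfl (g := fun _ => ((l : ℝ) / M) ^ l)]
        · rw [sum_const, nsmul_eq_mul]
        · intro p hp
          rw [(mem_filter.mp hp).2]
      rw [f1]
      calc _ ≤ ∑ p : P, ((l : ℝ) / M) ^ (vis p v).length :=
            Finset.sum_le_sum_of_subset_of_nonneg (filter_subset _ _)
              (fun _ _ _ => by positivity)
        _ = (1 + (l : ℝ) / M) ^ M := hgen v _
        _ ≤ (Real.exp ((l : ℝ) / M)) ^ M := by
            refine pow_le_pow_left₀ (by positivity) ?_ M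
            have := Real.add_one_le_exp ((l : ℝ) / M)
            linarith
        _ = Real.exp l := by
            rw [← Real.exp_nat_mul]
            congr 1
            field_simp
    have e3 : ((l : ℝ) / M) ^ l = Real.exp (-(M * Real.negMulLog ((l : ℝ) / M))) := by
      rcases Nat.eq_zero_or_pos l with rfl | hl0
      · simp
      · have hl0' : (0 : ℝ) < l := by exact_mod_cast hl0
        have hx : 0 < (l : ℝ) / M := by positivity
        have g1 : -((M : ℝ) * Real.negMulLog ((l : ℝ) / M)) = l * Real.log ((l : ℝ) / M) := by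
          rw [Real.negMulLog]
          field_simp
        rw [g1, Real.exp_nat_mul, Real.exp_log hx]
    have e4 : wt (1 / 8) M l ≤ Real.exp (-(l : ℝ)) * ((l : ℝ) / M) ^ l := by
      rw [e3, ← Real.exp_add, wt, HH]
      refine Real.exp_le_exp.mpr ?_
      have g1 : (1 : ℝ) / 8 * (l : ℝ) ^ 2 / M ≤ 1 / 8 * l := by
        rw [div_le_iff₀ hM']
        have := mul_le_mul_of_nonneg_left hlM (Nat.cast_nonneg (α := ℝ) l)
        nlinarith
      linarith
    calc c * wt (1 / 8) M l ≤ c * (Real.exp (-(l : ℝ)) * ((l : ℝ) / M) ^ l) :=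
          mul_le_mul_of_nonneg_left e4 hc0
      _ = Real.exp (-(l : ℝ)) * (c * ((l : ℝ) / M) ^ l) := by ring
      _ ≤ Real.exp (-(l : ℝ)) * Real.exp l := mul_le_mul_of_nonneg_left e2 (Real.exp_pos _).le
      _ = 1 := by rw [← Real.exp_add]; simp
  calc _ ≤ ∑ _l ∈ range (M + 1), (1 : ℝ) := Finset.sum_le_sum h3
    _ = M + 1 := by rw [sum_const, card_range, nsmul_eq_mul]; push_cast; ring

theorem exists_lvl (j i : ℕ) : ∃ (X P : Type) (_ : Fintype X) (_ : DecidableEq X) (_ : Fintype P)
    (vis : P → Bool × X → List (Bool × X)) (τ : X → X → ℕ),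
    Fintype.card X = 2 ^ (j + i) ∧ (∀ p v, Alt v (vis p v)) ∧ (∀ x y, τ x y < 2 ^ (j + i)) ∧
    Complete vis τ (2 ^ (j + i)) ∧
    ∀ v, ZW vis (wt (((i : ℝ) + 1) / 8) (2 ^ (j + i))) v
      ≤ Real.exp ((4 + 2 * (j : ℝ)) / 2 ^ j * 2 ^ (j + i)) / (16 * 2 ^ (j + i)) := by
  induction i with
  | zero =>
    obtain ⟨X, P, i1, i2, i3, vis, τ, hcard, halt, hτ, hcomp, hlen, hgen⟩ := exists_base j
    refine ⟨X, P, i1, i2, i3, vis, τ, hcard, halt, hτ, hcomp, fun v => ?_⟩
    have h1 := base_Z vis (2 ^ j) (by positivity) hlen hgen v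
    push_cast at h1 ⊢
    rw [zero_add, add_zero]
    refine h1.trans ?_
    have hp : (0 : ℝ) < 2 ^ j := by positivity
    have hp1 : (1 : ℝ) ≤ 2 ^ j := one_le_pow₀ (by norm_num)
    rw [div_mul_cancel₀ _ hp.ne', le_div_iff₀ (by positivity)]
    have e1 : (2 : ℝ) ≤ Real.exp 1 := by
      have := Real.exp_one_gt_d9; linarith
    have e2 : (32 : ℝ) ≤ Real.exp 4 := by
      have h4 : Real.exp 4 = Real.exp 1 ^ 4 := by
        rw [← Real.exp_nat_mul]; norm_num
      have h5 : (2.5 : ℝ) ^ 4 ≤ Real.exp 1 ^ 4 := pow_le_pow_left₀ (by norm_num)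
        (by have := Real.exp_one_gt_d9; linarith) _
      rw [h4]
      exact le_trans (by norm_num) h5
    have e3 : ((2 : ℝ) ^ j) * 2 ^ j ≤ Real.exp (2 * (j : ℝ)) := by
      have h4 : Real.exp (2 * (j : ℝ)) = Real.exp 1 ^ (2 * j) := by
        rw [← Real.exp_nat_mul]; push_cast; ring_nf
      rw [h4, ← pow_add, ← two_mul]
      exact pow_le_pow_left₀ (by norm_num) e1 _
    rw [Real.exp_add]
    calc ((2 : ℝ) ^ j + 1) * (16 * 2 ^ j) ≤ 32 * (2 ^ j * 2 ^ j) := by nlinarith
      _ ≤ Real.exp 4 * Real.exp (2 * (j : ℝ)) :=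
          mul_le_mul e2 e3 (by positivity) (Real.exp_pos _).le
  | succ i ih =>
    obtain ⟨X, P, i1, i2, i3, vis, τ, hcard, halt, hτ, hcomp, hZ⟩ := ih
    set M : ℝ := 2 ^ (j + i) with hMdef
    have hM0 : 0 < M := by positivity
    have hκ : (1 : ℝ) / 8 ≤ ((i : ℝ) + 1) / 8 := by
      have : (0 : ℝ) ≤ i := by positivity
      linarith
    have hcardR : (Fintype.card X : ℝ) = M := by rw [hcard, hMdef]; push_cast; ring
    obtain ⟨θ, hθ⟩ := level_up vis halt (wt (((i : ℝ) + 1) / 8) M)
      (wt (((i : ℝ) + 1) / 8 + 1 / 8) (2 * M)) (fun l => (wt_pos _ _ _).le) (Real.exp 1)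
      (Real.exp_pos _).le (by
        intro l m hl hm
        rw [hcardR]
        refine wt_up _ _ hκ hM0 l m ?_ ?_
        · rw [← hcardR]; exact_mod_cast hl
        · rw [← hcardR]; exact_mod_cast hm) _ hZ
    refine ⟨Bool × X, P × P, inferInstance, inferInstance, inferInstance, vis' vis θ,
      up τ (2 ^ (j + i)) θ, ?_, alt_up vis halt θ, ?_, ?_, ?_⟩
    · rw [Fintype.card_prod, Fintype.card_bool, hcard, ← add_assoc, pow_succ, mul_comm]
    · have := up_lt τ (2 ^ (j + i)) hτ θ
      intro x y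
      rw [← add_assoc, pow_succ, mul_comm]
      exact this x y
    · have := complete_up vis τ (2 ^ (j + i)) hτ θ hcomp
      rw [← add_assoc, pow_succ, mul_comm]
      exact this
    · intro v
      have h1 := hθ v
      have h2 : (2 : ℝ) ^ (j + (i + 1)) = 2 * M := by rw [hMdef, ← add_assoc, pow_succ]; ring
      have h3 : (((i + 1 : ℕ) : ℝ) + 1) / 8 = ((i : ℝ) + 1) / 8 + 1 / 8 := by
        push_cast; ring
      rw [h2, h3]
      refine h1.trans ?_
      rw [hcardR]
      have e2 : Real.exp 1 < 2.8 := by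
        have := Real.exp_one_lt_d9; linarith
      set A : ℝ := (4 + 2 * (j : ℝ)) / 2 ^ j with hA
      have e4 : Real.exp (A * (2 * M)) = Real.exp (A * M) * Real.exp (A * M) := by
        rw [← Real.exp_add]; congr 1; ring
      rw [e4]
      set E := Real.exp (A * M) with hE
      have hE0 : 0 < E := Real.exp_pos _
      have e5 : Real.exp 1 * (2 * M * (E / (16 * M) * (E / (16 * M))))
          = Real.exp 1 / 4 * (E * E / (16 * (2 * M))) := by
        field_simp
        ring
      rw [e5]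
      have h6 : 0 ≤ E * E / (16 * (2 * M)) := by positivity
      have h7 : Real.exp 1 / 4 ≤ 1 := by linarith
      exact mul_le_of_le_one_left h6 h7

lemma pow_aux : ∀ j : ℕ, (4 + 2 * j) * (2 * j + 3) ≤ 30 * 2 ^ j
  | 0 => by norm_num
  | 1 => by norm_num
  | (j + 2) => by
    have ih := pow_aux (j + 1)
    have h : (2 : ℕ) ^ (j + 2) = 2 * 2 ^ (j + 1) := by rw [pow_succ]; ring
    rw [h]
    nlinarith

/-- the final numerical step -/
lemma final_aux (k : ℕ) (lam : ℝ) (hlam : 0 ≤ lam)
    (h : (((k - k / 2 : ℕ) : ℝ) + 1) / 8 * lam ^ 2 ≤ 9 / 8 * lam + Real.negMulLog lam +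
      (4 + 2 * ((k / 2 : ℕ) : ℝ)) / 2 ^ (k / 2)) :
    lam ≤ 64 * (Real.log ((k : ℝ) + 2) / ((k : ℝ) + 2)) := by
  by_contra hcon
  push Not at hcon
  set K : ℝ := (k : ℝ) + 2 with hK
  have hK2 : 2 ≤ K := by rw [hK]; linarith [Nat.cast_nonneg (α := ℝ) k]
  have hK0 : 0 < K := by linarith
  set L := Real.log K with hL
  have hL0 : 0.6931 ≤ L := by
    have h1 : Real.log 2 ≤ L := Real.log_le_log (by norm_num) hK2
    have := Real.log_two_gt_d9
    linarith
  have hlam0 : 0 < lam := lt_of_le_of_lt (by positivity) hcon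
  -- logarithm
  have hlog : Real.negMulLog lam ≤ lam * L := by
    have h1 : -L ≤ Real.log lam := by
      rw [hL, ← Real.log_inv]
      apply Real.log_le_log (by positivity)
      refine le_trans ?_ hcon.le
      rw [inv_eq_one_div, ← mul_div_assoc]
      exact div_le_div_of_nonneg_right (by linarith) hK0.le
    rw [Real.negMulLog]
    nlinarith
  have hκ : K / 16 ≤ (((k - k / 2 : ℕ) : ℝ) + 1) / 8 := by
    have h1 : k + 2 ≤ 2 * (k - k / 2 + 1) := by omega
    have h2 : ((k + 2 : ℕ) : ℝ) ≤ ((2 * (k - k / 2 + 1) : ℕ) : ℝ) := by exact_mod_cast h1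
    push_cast at h2
    rw [hK]
    linarith
  have h4 : 4 * L * lam ≤ (((k - k / 2 : ℕ) : ℝ) + 1) / 8 * lam ^ 2 := by
    have h5 : 64 * L < lam * K := by
      rw [← mul_div_assoc, div_lt_iff₀ hK0] at hcon
      exact hcon
    calc 4 * L * lam = (64 * L) / 16 * lam := by ring
      _ ≤ (lam * K) / 16 * lam := by
          apply mul_le_mul_of_nonneg_right _ hlam
          linarith
      _ = K / 16 * lam ^ 2 := by ring
      _ ≤ _ := mul_le_mul_of_nonneg_right hκ (by positivity)
  have hA : (4 + 2 * ((k / 2 : ℕ) : ℝ)) / 2 ^ (k / 2) ≤ 30 / K := by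
    rw [div_le_div_iff₀ (by positivity) hK0]
    have h5 := pow_aux (k / 2)
    have h6 : (4 + 2 * (k / 2)) * (k + 2) ≤ 30 * 2 ^ (k / 2) :=
      le_trans (Nat.mul_le_mul_left _ (by omega)) h5
    have h7 : (((4 + 2 * (k / 2)) * (k + 2) : ℕ) : ℝ) ≤ ((30 * 2 ^ (k / 2) : ℕ) : ℝ) := by
      exact_mod_cast h6
    push_cast at h7
    rw [hK]
    linarith
  have h8 : L * lam ≤ 30 / K := by
    have h9 : 9 / 8 * lam ≤ 2 * L * lam := mul_le_mul_of_nonneg_right (by linarith) hlam
    nlinarith
  have h10 : 30 / K < L * lam := by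
    have h11 : L * (64 * (L / K)) < L * lam := mul_lt_mul_of_pos_left hcon (by linarith)
    have h12 : 30 / K ≤ L * (64 * (L / K)) := by
      rw [show L * (64 * (L / K)) = (64 * (L * L)) / K by ring]
      apply div_le_div_of_nonneg_right _ hK0.le
      nlinarith
    linarith
  linarith

/-- in the schedule of level `k` every weakly increasing self-avoiding path has length at most
`64 * 2 ^ k * log (k + 2) / (k + 2)` -/
theorem bipartite_bound (k : ℕ) : ∃ (X : Type) (_ : Fintype X) (_ : DecidableEq X)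
    (τ : X → X → ℕ), Fintype.card X = 2 ^ k ∧ (∀ x y, τ x y < 2 ^ k) ∧
    ∀ v l, Inc opp (tm τ) 0 (2 ^ k) v l → (v :: l).Nodup →
      (l.length : ℝ) ≤ 64 * (Real.log ((k : ℝ) + 2) / ((k : ℝ) + 2)) * 2 ^ k := by
  obtain ⟨X, P, i1, i2, i3, vis, τ, hcard, halt, hτ, hcomp, hZ⟩ :=
    exists_lvl (k / 2) (k - k / 2)
  have hk : k / 2 + (k - k / 2) = k := by omega
  rw [hk] at hcard hτ hcomp hZ
  refine ⟨X, i1, i2, τ, hcard, hτ, fun v l hl hn => ?_⟩
  obtain ⟨p, hp⟩ := hcomp v l hl hn
  have h1 := hZ v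
  set M : ℝ := 2 ^ k with hM
  have hM0 : 0 < M := by positivity
  have hM1 : 1 ≤ M := one_le_pow₀ (by norm_num)
  set κ : ℝ := (((k - k / 2 : ℕ) : ℝ) + 1) / 8 with hκ
  set A : ℝ := (4 + 2 * ((k / 2 : ℕ) : ℝ)) / 2 ^ (k / 2) with hA
  have h2 : wt κ M l.length ≤ ZW vis (wt κ M) v := by
    unfold ZW
    have h3 := Finset.single_le_sum (s := (univ : Finset P)) (f := fun p : P =>
      if (v :: vis p v).Nodup then wt κ M (vis p v).length else 0)
      (fun p _ => by
        split_ifs
        · exact (wt_pos _ _ _).le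
        · exact le_rfl) (Finset.mem_univ p)
    simp only [hp, hn, if_true] at h3
    exact h3
  have h4 : Real.exp (A * M) / (16 * M) ≤ Real.exp (A * M) :=
    div_le_self (Real.exp_pos _).le (by linarith)
  have h5 := Real.exp_le_exp.mp ((h2.trans h1).trans h4)
  set lam : ℝ := (l.length : ℝ) / M with hlam
  have hlM : (l.length : ℝ) = lam * M := by rw [hlam]; field_simp
  have h6 := final_aux k lam (by positivity) (by
    rw [HH, ← hlam, hlM] at h5
    have h7 : κ * (lam * M) ^ 2 / M = κ * lam ^ 2 * M := by field_simp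
    rw [h7] at h5
    have h8 : (κ * lam ^ 2) * M ≤ (9 / 8 * lam + Real.negMulLog lam + A) * M := by linarith
    exact le_of_mul_le_mul_right h8 hM0)
  rw [hlM]
  exact mul_le_mul_of_nonneg_right h6 hM0.le

end Pool.Agent.Y423.AL
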